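import Pool.Agent.H73.GWT.Stmts

/-!
# Row AL4 of project GWT (equal word lengths)
-/

set_option autoImplicit false

namespace GWT

theorem AL4 {G V : Type*} [Group G] [MulAction G V] (h1 : AL1Stmt G V) (h2 : AL2Stmt G V) :
    AL4Stmt G V := by
  intro T hT act o a b ℓ hℓ ha hb hab hno
  have A1 := h1 T hT act o a b ℓ hℓ ha hb hab
  have A2 := h2 T hT act o a b ℓ hℓ ha hb hab hno
  have hft : prw a b [false, true] = a * b := by simp [prw]
  have htf : prw a b [true, false] = b * a := by simp [prw]
  have hinv : ∀ (x : G) (u : V), T.dist (x⁻¹ • o) u = T.dist o (x • u) := by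
    intro x u
    have := GWP.dist_smul' act hT x (x⁻¹ • o) u
    rw [smul_inv_smul] at this
    exact this.symm
  refine ⟨?_, ?_, ?_, ?_⟩
  · have := (A1 [false, true]).1
    rw [hft] at this
    simpa using this
  · have := (A1 [true, false]).1
    rw [htf] at this
    simpa using this
  · intro x hx y hy
    rw [hinv, smul_smul]
    have key : ∀ l : List Bool, l.length = 4 → prw a b l = x * y →
        T.dist o ((x * y) • o) = 2 * (2 * ℓ) := by
      intro l hl hxy
      have := (A1 l).1
      rw [hxy, hl] at this
      rw [this]
      ring
    simp only [Set.mem_insert_iff, Set.mem_singleton_iff] at hx hy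
    rcases hx with rfl | rfl <;> rcases hy with rfl | rfl
    · exact key [false, true, false, true] rfl (by simp [prw, mul_assoc])
    · exact key [false, true, true, false] rfl (by simp [prw, mul_assoc])
    · exact key [true, false, false, true] rfl (by simp [prw, mul_assoc])
    · exact key [true, false, true, false] rfl (by simp [prw, mul_assoc])
  · intro g hg h
    rw [← hft, ← htf] at h
    have := A2 [false, true] [true, false] rfl g hg h
    simp at this

end GWT
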