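import Pool.Agent.H73.GWT.Stmts

/-!
# Row SOU of project GWT (soundness)
-/

set_option autoImplicit false

namespace GWT

namespace SOUAux

/-- all blocks which are not short are long -/
theorem sum_ge {B : Type*} (ℓ : B → ℕ) (sh : B → Bool) (c : ℕ) :
    ∀ bs : List B, (∀ b ∈ bs, ℓ b < c → sh b = true) →
      c * bs.length ≤ (bs.map ℓ).sum + c * bs.countP sh := by
  intro bs
  induction bs with
  | nil => intro _; simp
  | cons b bs ih =>
    intro h
    have ih' := ih fun b' hb' => h b' (List.mem_cons_of_mem _ hb')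
    rw [List.length_cons, List.map_cons, List.sum_cons, List.countP_cons]
    by_cases hs : sh b = true
    · simp only [hs, if_true]
      rw [mul_add, mul_add]
      omega
    · have hb : c ≤ ℓ b := by
        by_contra hlt
        exact hs (h b List.mem_cons_self (not_le.1 hlt))
      simp only [hs]
      rw [mul_add, mul_one]
      simp only [Bool.false_eq_true, if_false, add_zero]
      omega

end SOUAux

variable {ι G V : Type*} [Fintype ι] [Group G] [MulAction G V] (C : Code ι G V)

theorem SOU {B : Type*} (h1 : PLYStmt C B) : SOUStmt C B := by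
  intro val sh cmp θ E c₁ R ok hc hθ hR hE hsh hcmp bs hbs hd
  obtain ⟨cfg, hcfg, _, _, h2, h3⟩ := h1 val sh cmp θ E ok hE hcmp bs hbs
  refine ⟨cfg, hcfg, ?_⟩
  have h4 := SOUAux.sum_ge (fun b => C.d C.o (val b • C.o)) sh c₁ bs
    (fun b hb hlt => hsh b (hbs b hb) hlt)
  have h5 : c₁ * bs.countP sh ≤ c₁ * cfg.2 := Nat.mul_le_mul_left _ h2
  have h6 : 8 * θ * bs.length ≤ c₁ * bs.length := Nat.mul_le_mul_right _ hθ
  have h7 : (6 * E + 2 * c₁) * (cfg.2 + 1) ≤ R * c₁ * (cfg.2 + 1) := Nat.mul_le_mul_right _ hR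
  have h8 : 2 * (E * 1) ≤ 6 * E := by omega
  have h9 : c₁ * bs.length ≤ c₁ * (R * (cfg.2 + 1)) := by
    nlinarith [Nat.zero_le (E * cfg.2), Nat.zero_le (c₁ * cfg.2), Nat.zero_le E,
      Nat.zero_le (θ * cfg.1.length)]
  exact Nat.le_of_mul_le_mul_left h9 hc

end GWT
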